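import Mathlib

set_option autoImplicit false
set_option linter.unusedSectionVars false

namespace Pool.Agent.TH87.RVM

open Finset Classical

section ty

variable {V : Type} [Fintype V]

/-- a binary relation with a set of points -/
abbrev St (V : Type) := Finset V × (V → V → Prop)

/-- isomorphism of the induced relations -/
def Rl (S T : St V) : Prop :=
  ∃ f : V → V, (∀ x ∈ S.1, ∀ y ∈ S.1, f x = f y → x = y) ∧ S.1.image f = T.1 ∧
    ∀ x ∈ S.1, ∀ y ∈ S.1, (T.2 (f x) (f y) ↔ S.2 x y)

theorem rl_refl (S : St V) : Rl S S :=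
  ⟨id, fun _ _ _ _ h => h, by simp, fun _ _ _ _ => Iff.rfl⟩

theorem rl_symm (S T : St V) (h : Rl S T) : Rl T S := by
  obtain ⟨f, h1, h2, h3⟩ := h
  have hex : ∀ t ∈ T.1, ∃ x ∈ S.1, f x = t := by
    intro t ht
    rw [← h2, mem_image] at ht
    exact ht
  choose! g hg1 hg2 using hex
  refine ⟨g, fun x hx y hy hxy => ?_, ?_, fun x hx y hy => ?_⟩
  · rw [← hg2 x hx, ← hg2 y hy, hxy]
  · ext x
    rw [mem_image]
    constructor
    · rintro ⟨t, ht, rfl⟩
      exact hg1 t ht
    · intro hx
      have hfx : f x ∈ T.1 := by rw [← h2]; exact mem_image_of_mem f hx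
      exact ⟨f x, hfx, h1 _ (hg1 _ hfx) _ hx (hg2 _ hfx)⟩
  · rw [← h3 _ (hg1 x hx) _ (hg1 y hy), hg2 x hx, hg2 y hy]

theorem rl_trans (S T R : St V) (h : Rl S T) (k : Rl T R) : Rl S R := by
  obtain ⟨f, h1, h2, h3⟩ := h
  obtain ⟨g, k1, k2, k3⟩ := k
  have hf : ∀ x ∈ S.1, f x ∈ T.1 := fun x hx => by rw [← h2]; exact mem_image_of_mem f hx
  refine ⟨g ∘ f, fun x hx y hy hxy => ?_, ?_, fun x hx y hy => ?_⟩
  · exact h1 x hx y hy (k1 _ (hf x hx) _ (hf y hy) hxy)
  · rw [← image_image, h2, k2]
  · exact (k3 _ (hf x hx) _ (hf y hy)).trans (h3 x hx y hy)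

/-- isomorphism -/
def stS (V : Type) [Fintype V] : Setoid (St V) where
  r := Rl
  iseqv := ⟨rl_refl, fun {S T} h => rl_symm S T h, fun {S T R} h k => rl_trans S T R h k⟩

/-- isomorphism types -/
def Ty (V : Type) [Fintype V] : Type := Quotient (stS V)

noncomputable instance : Fintype (Ty V) :=
  @Fintype.ofFinite _ (inferInstanceAs (Finite (Quotient (stS V))))

/-- the isomorphism type -/
def ty (S : Finset V) (r : V → V → Prop) : Ty V := Quotient.mk (stS V) (S, r)

theorem ty_eq (S T : Finset V) (r s : V → V → Prop) : ty S r = ty T s ↔ Rl (S, r) (T, s) :=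
  ⟨fun h => Quotient.exact h, fun h => Quotient.sound (s := stS V) h⟩

theorem card_rl (S T : St V) (h : Rl S T) : S.1.card = T.1.card := by
  obtain ⟨f, h1, h2, _⟩ := h
  rw [← h2]
  exact (card_image_of_injOn (fun x hx y hy => h1 x hx y hy)).symm

/-- the number of points -/
noncomputable def szt (x : Ty V) : ℕ := (Quotient.out x).1.card

theorem szt_ty (S : Finset V) (r : V → V → Prop) : szt (ty S r) = S.card := by
  have h : Rl (Quotient.out (ty S r)) (S, r) := Quotient.exact (Quotient.out_eq (ty S r))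
  exact card_rl _ _ h

/-- the number of subsets of `U` of a given type -/
noncomputable def cn (r : V → V → Prop) (U : Finset V) (x : Ty V) : ℕ :=
  (U.powerset.filter (fun S => ty S r = x)).card

theorem ty_map (r s : V → V → Prop) (U : Finset V) (σ : Equiv.Perm V)
    (hr : ∀ x ∈ U, ∀ y ∈ U, (s (σ x) (σ y) ↔ r x y)) (S : Finset V) (hS : S ⊆ U) :
    ty (S.map σ.toEmbedding) s = ty S r := by
  rw [eq_comm, ty_eq]
  refine ⟨σ, fun x _ y _ h => σ.injective h, ?_, fun x hx y hy => hr x (hS hx) y (hS hy)⟩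
  show S.image σ = S.map σ.toEmbedding
  rw [map_eq_image]
  rfl

theorem cn_map (r s : V → V → Prop) (U U' : Finset V) (σ : Equiv.Perm V)
    (hU : U.map σ.toEmbedding = U') (hr : ∀ x ∈ U, ∀ y ∈ U, (s (σ x) (σ y) ↔ r x y)) (x : Ty V) :
    cn s U' x = cn r U x := by
  unfold cn
  symm
  apply card_bij (fun S _ => S.map σ.toEmbedding)
  · intro S hS
    rw [mem_filter, mem_powerset] at hS ⊢
    rw [ty_map r s U σ hr S hS.1]
    exact ⟨by rw [← hU]; exact map_subset_map.mpr hS.1, hS.2⟩
  · intro S _ T _ h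
    exact Finset.map_injective _ h
  · intro T hT
    rw [mem_filter, mem_powerset] at hT
    refine ⟨T.map σ.symm.toEmbedding, ?_, ?_⟩
    · have h1 : (T.map σ.symm.toEmbedding).map σ.toEmbedding = T := by
        rw [map_map]
        ext y
        simp
      have h2 : T.map σ.symm.toEmbedding ⊆ U := by
        rw [← map_subset_map (f := σ.toEmbedding), h1, hU]
        exact hT.1
      rw [mem_filter, mem_powerset]
      refine ⟨h2, ?_⟩
      rw [← ty_map r s U σ hr _ h2, h1]
      exact hT.2
    · rw [map_map]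
      ext y
      simp

/-- Kelly's lemma -/
theorem kelly_sum (r : V → V → Prop) (x : Ty V) :
    ∑ v, cn r (univ.erase v) x = (Fintype.card V - szt x) * cn r univ x := by
  unfold cn
  have h1 : ∀ v : V, (((univ.erase v).powerset.filter (fun S => ty S r = x)).card) =
      ∑ S ∈ univ.powerset.filter (fun S => ty S r = x), if v ∉ S then 1 else 0 := by
    intro v
    rw [sum_boole, Nat.cast_id, filter_filter]
    congr 1
    ext S
    simp only [mem_filter, mem_powerset, subset_erase, subset_univ, true_and]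
    tauto
  rw [sum_congr rfl (fun v _ => h1 v), sum_comm]
  rw [mul_comm, ← smul_eq_mul, ← sum_const]
  apply sum_congr rfl
  intro S hS
  rw [mem_filter] at hS
  rw [sum_boole, Nat.cast_id, ← hS.2, szt_ty, ← card_compl]
  congr 1
  ext v
  simp

/-- hypomorphic relations -/
structure HypR (r s : V → V → Prop) (π : V → Equiv.Perm V) : Prop where
  fix : ∀ v, π v v = v
  adj : ∀ v x y, x ≠ v → y ≠ v → (s (π v x) (π v y) ↔ r x y)

theorem map_erase_univ (σ : Equiv.Perm V) (v : V) (h : σ v = v) :
    (univ.erase v).map σ.toEmbedding = univ.erase v := by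
  ext x
  rw [mem_map_equiv, mem_erase, mem_erase]
  have : σ.symm x ≠ v ↔ x ≠ v := by
    rw [← σ.injective.ne_iff, Equiv.apply_symm_apply, h]
  simp [this]

theorem kelly (r s : V → V → Prop) (π : V → Equiv.Perm V) (hH : HypR r s π) (x : Ty V)
    (hx : szt x < Fintype.card V) : cn r univ x = cn s univ x := by
  have h1 := kelly_sum r x
  have h2 := kelly_sum s x
  have h3 : ∀ v, cn s (univ.erase v) x = cn r (univ.erase v) x := by
    intro v
    apply cn_map r s _ _ (π v) (map_erase_univ _ _ (hH.fix v))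
    intro a ha b hb
    exact hH.adj v a b (mem_erase.mp ha).1 (mem_erase.mp hb).1
  rw [sum_congr rfl (fun v _ => h3 v), h1] at h2
  exact Nat.eq_of_mul_eq_mul_left (by omega) h2

section cancel

variable (r s : V → V → Prop) (M M' : Finset V) (ρ : Equiv.Perm V)
  (hρ : M.map ρ.toEmbedding = M')
  (hout : ∀ x y, x ∉ M → y ∉ M → (s (ρ x) (ρ y) ↔ r x y))
  (hmix : ∀ x y, x ∉ M → y ∈ M → ∀ y' ∈ M', (s (ρ x) y' ↔ r x y) ∧ (s y' (ρ x) ↔ r y x))

include hρ hout hmix

theorem rho_mem (x : V) : ρ x ∈ M' ↔ x ∈ M := by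
  rw [← hρ, mem_map_equiv, Equiv.symm_apply_apply]

/-- gluing -/
theorem glue (T Y Y' : Finset V) (hT : Disjoint T M) (hY : Y ⊆ M) (hY' : Y' ⊆ M')
    (h : ty Y r = ty Y' s) : ty (T ∪ Y) r = ty (T.map ρ.toEmbedding ∪ Y') s := by
  rw [ty_eq] at h ⊢
  obtain ⟨f, h1, h2, h3⟩ := h
  simp only at h1 h2 h3
  have hmem := rho_mem r s M M' ρ hρ hout hmix
  have hTM : ∀ x ∈ T, x ∉ M := fun x hx => Finset.disjoint_left.mp hT hx
  have hfY : ∀ x ∈ Y, f x ∈ Y' := fun x hx => by rw [← h2]; exact mem_image_of_mem f hx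
  let g : V → V := fun x => if x ∈ Y then f x else ρ x
  have hgY : ∀ x ∈ Y, g x = f x := fun x hx => by simp [g, hx]
  have hgT : ∀ x ∈ T, g x = ρ x := fun x hx => by
    have : x ∉ Y := fun h => hTM x hx (hY h)
    simp [g, this]
  have hTn : ∀ x ∈ T, ρ x ∉ M' := fun x hx => by rw [hmem]; exact hTM x hx
  refine ⟨g, fun x hx y hy hxy => ?_, ?_, fun x hx y hy => ?_⟩
  · rcases mem_union.mp hx with hx | hx <;> rcases mem_union.mp hy with hy | hy
    · rw [hgT x hx, hgT y hy] at hxy
      exact ρ.injective hxy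
    · rw [hgT x hx, hgY y hy] at hxy
      exact absurd (hY' (hfY y hy)) (hxy ▸ hTn x hx)
    · rw [hgY x hx, hgT y hy] at hxy
      exact absurd (hY' (hfY x hx)) (hxy ▸ hTn y hy)
    · rw [hgY x hx, hgY y hy] at hxy
      exact h1 x hx y hy hxy
  · show (T ∪ Y).image g = T.map ρ.toEmbedding ∪ Y'
    rw [image_union, image_congr (s := T) (g := ρ) (fun x hx => hgT x hx),
      image_congr (s := Y) (g := f) (fun x hx => hgY x hx), h2, map_eq_image]
    rfl
  · show s (g x) (g y) ↔ r x y
    rcases mem_union.mp hx with hx | hx <;> rcases mem_union.mp hy with hy | hy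
    · rw [hgT x hx, hgT y hy]
      exact hout x y (hTM x hx) (hTM y hy)
    · rw [hgT x hx, hgY y hy]
      exact (hmix x y (hTM x hx) (hY hy) (f y) (hY' (hfY y hy))).1
    · rw [hgY x hx, hgT y hy]
      exact (hmix y x (hTM y hy) (hY hx) (f x) (hY' (hfY x hx))).2
    · rw [hgY x hx, hgY y hy]
      exact h3 x hx y hy

/-- the number of subsets with a given trace outside `M` -/
noncomputable def ct (r : V → V → Prop) (M T : Finset V) (x : Ty V) : ℕ :=
  (M.powerset.filter (fun Y => ty (T ∪ Y) r = x)).card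

omit hρ hout hmix in
theorem cn_eq_sum (r : V → V → Prop) (M : Finset V) (x : Ty V) :
    cn r univ x = ∑ T ∈ (univ \ M).powerset, ct r M T x := by
  unfold cn ct
  rw [card_eq_sum_card_fiberwise (f := fun S => S \ M) (t := (univ \ M).powerset)]
  · apply sum_congr rfl
    intro T hT
    rw [mem_powerset] at hT
    have hTM : Disjoint T M := by
      rw [Finset.disjoint_left]
      intro x hx
      exact (mem_sdiff.mp (hT hx)).2
    apply card_bij' (fun S _ => S ∩ M) (fun Y _ => T ∪ Y)
    · intro S hS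
      rw [mem_filter, mem_filter, mem_powerset] at hS
      rw [mem_filter, mem_powerset]
      refine ⟨inter_subset_right, ?_⟩
      rw [← hS.1.2, ← hS.2]
      congr 1
      exact sdiff_union_inter S M
    · intro Y hY
      rw [mem_filter, mem_powerset] at hY
      rw [mem_filter, mem_filter, mem_powerset]
      refine ⟨⟨subset_univ _, hY.2⟩, ?_⟩
      show (T ∪ Y) \ M = T
      rw [union_sdiff_distrib, sdiff_eq_empty_iff_subset.mpr hY.1, union_empty,
        sdiff_eq_self_of_disjoint hTM]
    · intro S hS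
      rw [mem_filter] at hS
      show T ∪ S ∩ M = S
      rw [← hS.2]
      exact sdiff_union_inter S M
    · intro Y hY
      rw [mem_filter, mem_powerset] at hY
      show (T ∪ Y) ∩ M = Y
      rw [union_inter_distrib_right, disjoint_iff_inter_eq_empty.mp hTM, empty_union,
        inter_eq_left.mpr hY.1]
  · intro S _
    exact mem_powerset.mpr (sdiff_subset_sdiff (subset_univ _) le_rfl)

omit hρ hout hmix in
theorem ct_empty (r : V → V → Prop) (M : Finset V) (x : Ty V) : ct r M ∅ x = cn r M x := by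
  unfold ct cn
  simp only [empty_union]

/-- equal traces outside -/
theorem ct_eq (x : Ty V) (ih : ∀ z : Ty V, szt z < szt x → cn r M z = cn s M' z)
    (T : Finset V) (hT : Disjoint T M) (hT0 : T.Nonempty) :
    ct r M T x = ct s M' (T.map ρ.toEmbedding) x := by
  have hmem := rho_mem r s M M' ρ hρ hout hmix
  have hTM : ∀ x ∈ T, x ∉ M := fun x hx => Finset.disjoint_left.mp hT hx
  have hT' : Disjoint (T.map ρ.toEmbedding) M' := by
    rw [Finset.disjoint_left]
    intro y hy hyM
    obtain ⟨z, hz, rfl⟩ := mem_map.mp hy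
    exact hTM z hz ((hmem z).mp hyM)
  have hsplit : ∀ (r : V → V → Prop) (M T : Finset V), ct r M T x =
      ∑ z, (M.powerset.filter (fun Y => ty Y r = z ∧ ty (T ∪ Y) r = x)).card := by
    intro r M T
    unfold ct
    rw [card_eq_sum_card_fiberwise (f := fun Y => ty Y r) (t := univ) (fun _ _ => mem_coe.mpr (mem_univ _))]
    apply sum_congr rfl
    intro z _
    congr 1
    ext Y
    simp only [mem_filter]
    tauto
  rw [hsplit, hsplit]
  apply sum_congr rfl
  intro z _
  have hT0c : 0 < T.card := card_pos.mpr hT0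
  by_cases hz : szt z < szt x
  · have hcn := ih z hz
    by_cases h0 : cn r M z = 0
    · have h0' : cn s M' z = 0 := by omega
      unfold cn at h0 h0'
      rw [card_eq_zero] at h0 h0'
      have e1 : M.powerset.filter (fun Y => ty Y r = z ∧ ty (T ∪ Y) r = x) = ∅ := by
        rw [← filter_filter, h0, filter_empty]
      have e2 : M'.powerset.filter (fun Y => ty Y s = z ∧ ty (T.map ρ.toEmbedding ∪ Y) s = x) =
          ∅ := by
        rw [← filter_filter, h0', filter_empty]
      rw [e1, e2]
    · obtain ⟨Y0, hY0⟩ := card_pos.mp (Nat.pos_of_ne_zero h0)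
      have h0' : cn s M' z ≠ 0 := by omega
      obtain ⟨Y0', hY0'⟩ := card_pos.mp (Nat.pos_of_ne_zero h0')
      rw [mem_filter, mem_powerset] at hY0 hY0'
      have g1 : ∀ Y ⊆ M, ty Y r = z → ty (T ∪ Y) r = ty (T.map ρ.toEmbedding ∪ Y0') s :=
        fun Y hY hYz => glue r s M M' ρ hρ hout hmix T Y Y0' hT hY hY0'.1 (hYz.trans hY0'.2.symm)
      have g2 : ∀ Y' ⊆ M', ty Y' s = z →
          ty (T.map ρ.toEmbedding ∪ Y') s = ty (T.map ρ.toEmbedding ∪ Y0') s := by
        intro Y' hY' hYz'
        rw [← g1 Y0 hY0.1 hY0.2]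
        exact (glue r s M M' ρ hρ hout hmix T Y0 Y' hT hY0.1 hY' (hY0.2.trans hYz'.symm)).symm
      by_cases hb : ty (T.map ρ.toEmbedding ∪ Y0') s = x
      · have e1 : M.powerset.filter (fun Y => ty Y r = z ∧ ty (T ∪ Y) r = x) =
            M.powerset.filter (fun Y => ty Y r = z) := by
          apply filter_congr
          intro Y hY
          exact ⟨fun h => h.1, fun h => ⟨h, (g1 Y (mem_powerset.mp hY) h).trans hb⟩⟩
        have e2 : M'.powerset.filter (fun Y => ty Y s = z ∧ ty (T.map ρ.toEmbedding ∪ Y) s = x) =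
            M'.powerset.filter (fun Y => ty Y s = z) := by
          apply filter_congr
          intro Y hY
          exact ⟨fun h => h.1, fun h => ⟨h, (g2 Y (mem_powerset.mp hY) h).trans hb⟩⟩
        rw [e1, e2]
        exact hcn
      · have e1 : M.powerset.filter (fun Y => ty Y r = z ∧ ty (T ∪ Y) r = x) = ∅ := by
          rw [filter_eq_empty_iff]
          intro Y hY h
          exact hb ((g1 Y (mem_powerset.mp hY) h.1).symm.trans h.2)
        have e2 : M'.powerset.filter (fun Y => ty Y s = z ∧ ty (T.map ρ.toEmbedding ∪ Y) s = x) =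
            ∅ := by
          rw [filter_eq_empty_iff]
          intro Y hY h
          exact hb ((g2 Y (mem_powerset.mp hY) h.1).symm.trans h.2)
        rw [e1, e2]
  · have e1 : M.powerset.filter (fun Y => ty Y r = z ∧ ty (T ∪ Y) r = x) = ∅ := by
      rw [filter_eq_empty_iff]
      rintro Y hY ⟨h1, h2⟩
      have a1 := szt_ty Y r
      have a2 := szt_ty (T ∪ Y) r
      have a3 : (T ∪ Y).card = T.card + Y.card :=
        card_union_of_disjoint (hT.mono_right (mem_powerset.mp hY))
      rw [h1] at a1
      rw [h2] at a2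
      omega
    have e2 : M'.powerset.filter (fun Y => ty Y s = z ∧ ty (T.map ρ.toEmbedding ∪ Y) s = x) =
        ∅ := by
      rw [filter_eq_empty_iff]
      rintro Y hY ⟨h1, h2⟩
      have a1 := szt_ty Y s
      have a2 := szt_ty (T.map ρ.toEmbedding ∪ Y) s
      have a3 : (T.map ρ.toEmbedding ∪ Y).card = (T.map ρ.toEmbedding).card + Y.card :=
        card_union_of_disjoint (hT'.mono_right (mem_powerset.mp hY))
      rw [h1] at a1
      rw [h2] at a2
      rw [card_map] at a3
      omega
    rw [e1, e2]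

/-- cancellation of the outside -/
theorem cancel (hK : ∀ x : Ty V, szt x < Fintype.card V → cn r univ x = cn s univ x) :
    ∀ k, ∀ x : Ty V, szt x = k → k < Fintype.card V → cn r M x = cn s M' x := by
  intro k
  induction k using Nat.strong_induction_on with
  | _ k ih =>
    intro x hx hk
    have h1 := hK x (by omega)
    rw [cn_eq_sum r M x, cn_eq_sum s M' x] at h1
    have hmem := rho_mem r s M M' ρ hρ hout hmix
    have hR : (univ \ M').powerset = (univ \ M).powerset.image (fun T => T.map ρ.toEmbedding) := by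
      ext T
      rw [mem_powerset, mem_image]
      constructor
      · intro hT
        refine ⟨T.map ρ.symm.toEmbedding, ?_, ?_⟩
        · rw [mem_powerset]
          intro y hy
          obtain ⟨z, hz, rfl⟩ := mem_map.mp hy
          have := (mem_sdiff.mp (hT hz)).2
          rw [mem_sdiff]
          refine ⟨mem_univ _, fun h => this ?_⟩
          rw [← hmem] at h
          have e : ρ (ρ.symm z) = z := Equiv.apply_symm_apply _ _
          rwa [show ρ (ρ.symm.toEmbedding z) = z from e] at h
        · rw [map_map]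
          ext y
          simp
      · rintro ⟨T', hT', rfl⟩
        rw [mem_powerset] at hT'
        intro y hy
        obtain ⟨z, hz, rfl⟩ := mem_map.mp hy
        have := (mem_sdiff.mp (hT' hz)).2
        rw [mem_sdiff]
        exact ⟨mem_univ _, fun h => this ((hmem z).mp h)⟩
    rw [hR, sum_image (fun T _ T' _ h => Finset.map_injective _ h)] at h1
    have h0 : (∅ : Finset V) ∈ (univ \ M).powerset := empty_mem_powerset _
    rw [← add_sum_erase _ _ h0, ← add_sum_erase _ _ h0, map_empty, ct_empty, ct_empty] at h1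
    have h2 : ∑ T ∈ (univ \ M).powerset.erase ∅, ct r M T x =
        ∑ T ∈ (univ \ M).powerset.erase ∅, ct s M' (T.map ρ.toEmbedding) x := by
      apply sum_congr rfl
      intro T hT
      rw [mem_erase, mem_powerset] at hT
      apply ct_eq r s M M' ρ hρ hout hmix x
      · intro z hz
        exact ih (szt z) (by omega) z rfl (by omega)
      · rw [Finset.disjoint_left]
        intro y hy
        exact (mem_sdiff.mp (hT.2 hy)).2
      · exact nonempty_iff_ne_empty.mpr hT.1
    omega

/-- the two inner structures are isomorphic -/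
theorem inner_iso (hK : ∀ x : Ty V, szt x < Fintype.card V → cn r univ x = cn s univ x)
    (hM : M.card < Fintype.card V) : Rl (M, r) (M', s) := by
  have h1 := cancel r s M M' ρ hρ hout hmix hK M.card (ty M r) (szt_ty M r) hM
  have h2 : 0 < cn r M (ty M r) :=
    card_pos.mpr ⟨M, mem_filter.mpr ⟨mem_powerset.mpr (Subset.refl _), rfl⟩⟩
  rw [h1] at h2
  obtain ⟨Y, hY⟩ := card_pos.mp h2
  rw [mem_filter, mem_powerset] at hY
  have h3 : Y.card = M'.card := by
    have e1 := szt_ty Y s
    rw [hY.2, szt_ty] at e1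
    rw [← e1, ← hρ, card_map]
  have h4 : Y = M' := eq_of_subset_of_card_le hY.1 h3.ge
  rw [← ty_eq, ← h4]
  exact hY.2.symm

end cancel

end ty

end Pool.Agent.TH87.RVM
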