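import Pool.Agent.TH87.RVE.Comp
import Pool.Agent.TH87.RVC.Graph
import Pool.Agent.TH87.RVM.Ty

set_option autoImplicit false
set_option linter.unusedSectionVars false

namespace Pool.Agent.TH87.RVM

open Finset Classical
open Pool.Agent.H234RC (Hypo)
open Pool.Agent.TH87.RVC (dS dS_eq)
open Pool.Agent.TH87.RVE

variable {V : Type} [Fintype V]

/-- the graph of the comparable pairs -/
def KG (r : V → V → Prop) : SimpleGraph V where
  Adj x y := x ≠ y ∧ (r x y ∨ r y x)
  symm := ⟨fun _ _ h => ⟨h.1.symm, h.2.symm⟩⟩
  loopless := ⟨fun _ h => h.1 rfl⟩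

theorem KG_adj (r : V → V → Prop) (x y : V) : (KG r).Adj x y ↔ x ≠ y ∧ (r x y ∨ r y x) := Iff.rfl

theorem KG_hypo (r s : V → V → Prop) (π : V → Equiv.Perm V) (hH : HypR r s π) :
    Hypo (KG r) (KG s) π := by
  refine ⟨hH.fix, fun v x y hx hy => ?_⟩
  rw [KG_adj, KG_adj, (π v).injective.ne_iff, hH.adj v x y hx hy, hH.adj v y x hy hx]

/-- all points of `S` are joined inside `S` -/
def Conn (K : SimpleGraph V) (S : Finset V) : Prop := ∀ a ∈ S, ∀ b ∈ S, rch K S a b

theorem conn_rl (r s : V → V → Prop) (S T : Finset V) (h : Rl (S, r) (T, s)) (hS : Conn (KG r) S) :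
    Conn (KG s) T := by
  obtain ⟨f, h1, h2, h3⟩ := h
  simp only at h1 h2 h3
  have hf : ∀ x ∈ S, f x ∈ T := fun x hx => by rw [← h2]; exact mem_image_of_mem f hx
  have key : ∀ a b, rch (KG r) S a b → rch (KG s) T (f a) (f b) := by
    intro a b h
    induction h with
    | refl => exact Relation.ReflTransGen.refl
    | tail _ h5 ih =>
      refine Relation.ReflTransGen.tail ih ⟨hf _ h5.1, hf _ h5.2.1, ?_⟩
      have h6 := h5.2.2
      rw [KG_adj] at h6 ⊢
      refine ⟨fun e => h6.1 (h1 _ h5.1 _ h5.2.1 e), ?_⟩
      rw [h3 _ h5.1 _ h5.2.1, h3 _ h5.2.1 _ h5.1]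
      exact h6.2
  intro a ha b hb
  rw [← h2, mem_image] at ha hb
  obtain ⟨a', ha', rfl⟩ := ha
  obtain ⟨b', hb', rfl⟩ := hb
  exact key _ _ (hS a' ha' b' hb')

theorem conn_comp (K : SimpleGraph V) (D : Finset V) (hD : D ∈ comps K univ) : Conn K D := by
  intro a ha b hb
  have h1 : b ∈ comp K univ a := by rw [comp_of_mem K univ D hD a ha]; exact hb
  exact (rch_closed K univ D (fun x hx y hy h => comp_closed K univ D hD x y hx hy h) ha
    ((mem_comp K _ _ _).mp h1).2).2

theorem cn_rl_le (r s : V → V → Prop) (S T : Finset V) (h : Rl (S, r) (T, s)) (x : Ty V) :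
    cn r S x ≤ cn s T x := by
  obtain ⟨f, h1, h2, h3⟩ := h
  simp only at h1 h2 h3
  unfold cn
  apply card_le_card_of_injOn (fun S' => S'.image f)
  · intro S' hS'
    have hS'2 := mem_filter.mp (mem_coe.mp hS')
    rw [mem_powerset] at hS'2
    apply mem_coe.mpr
    rw [mem_filter, mem_powerset]
    refine ⟨?_, ?_⟩
    · rw [← h2]
      exact image_subset_image hS'2.1
    · rw [← hS'2.2, eq_comm, ty_eq]
      exact ⟨f, fun a ha b hb => h1 a (hS'2.1 ha) b (hS'2.1 hb), rfl,
        fun a ha b hb => h3 a (hS'2.1 ha) b (hS'2.1 hb)⟩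
  · intro A hA B hB hAB
    have hA2 := (mem_powerset.mp (mem_filter.mp (mem_coe.mp hA)).1)
    have hB2 := (mem_powerset.mp (mem_filter.mp (mem_coe.mp hB)).1)
    have key : ∀ A B : Finset V, A ⊆ S → B ⊆ S → A.image f = B.image f → A ⊆ B := by
      intro A B hA hB hAB a ha
      have h4 : f a ∈ B.image f := by rw [← hAB]; exact mem_image_of_mem f ha
      obtain ⟨b, hb, hba⟩ := mem_image.mp h4
      rw [← h1 b (hB hb) a (hA ha) hba]
      exact hb
    exact subset_antisymm (key A B hA2 hB2 hAB) (key B A hB2 hA2 hAB.symm)

theorem cn_rl (r s : V → V → Prop) (S T : Finset V) (h : Rl (S, r) (T, s)) (x : Ty V) :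
    cn r S x = cn s T x :=
  le_antisymm (cn_rl_le r s S T h x) (cn_rl_le s r T S (rl_symm _ _ h) x)

/-- the number of subsets of type `x` in the type `y` -/
noncomputable def cy (y x : Ty V) : ℕ := cn (Quotient.out y).2 (Quotient.out y).1 x

theorem cn_cy (r : V → V → Prop) (D : Finset V) (x : Ty V) : cn r D x = cy (ty D r) x := by
  unfold cy
  apply cn_rl
  exact rl_symm _ _ (Quotient.exact (Quotient.out_eq (ty D r)))

/-- the number of components of type `x` -/
noncomputable def nu (r : V → V → Prop) (x : Ty V) : ℕ :=
  ((comps (KG r) univ).filter (fun D => ty D r = x)).card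

theorem cn_eq_zero (r : V → V → Prop) (D : Finset V) (x : Ty V) (h : D.card < szt x) :
    cn r D x = 0 := by
  unfold cn
  rw [card_eq_zero, filter_eq_empty_iff]
  intro S hS hx
  have h1 := card_le_card (mem_powerset.mp hS)
  have h2 := szt_ty S r
  rw [hx] at h2
  omega

theorem cn_same (r : V → V → Prop) (D : Finset V) (x : Ty V) (h : D.card = szt x) :
    cn r D x = if ty D r = x then 1 else 0 := by
  unfold cn
  split_ifs with hx
  · rw [card_eq_one]
    refine ⟨D, ?_⟩
    ext S
    rw [mem_filter, mem_powerset, mem_singleton]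
    constructor
    · rintro ⟨h1, h2⟩
      have h3 := szt_ty S r
      rw [h2] at h3
      exact eq_of_subset_of_card_le h1 (by omega)
    · rintro rfl
      exact ⟨Subset.refl _, hx⟩
  · rw [card_eq_zero, filter_eq_empty_iff]
    intro S hS h2
    have h3 := szt_ty S r
    rw [h2] at h3
    have h4 := eq_of_subset_of_card_le (mem_powerset.mp hS) (by omega)
    rw [h4] at h2
    exact hx h2

/-- subsets of connected type lie in components -/
theorem cn_comps (r : V → V → Prop) (x : Ty V) (hx : ∀ S, ty S r = x → Conn (KG r) S)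
    (hx0 : 0 < szt x) : cn r univ x = ∑ D ∈ comps (KG r) univ, cn r D x := by
  have h1 : univ.powerset.filter (fun S => ty S r = x) =
      (comps (KG r) univ).biUnion (fun D => D.powerset.filter (fun S => ty S r = x)) := by
    ext S
    simp only [mem_filter, mem_powerset, mem_biUnion, subset_univ, true_and]
    constructor
    · intro hS
      have hc := hx S hS
      have h2 : S.Nonempty := by
        rw [← card_pos]
        rw [← szt_ty S r, hS]
        exact hx0
      obtain ⟨a, ha⟩ := h2
      refine ⟨comp (KG r) univ a, comp_mem_comps _ _ a (mem_univ _), ?_, hS⟩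
      intro b hb
      rw [mem_comp]
      exact ⟨mem_univ _, rch_mono _ S univ (subset_univ _) (hc a ha b hb)⟩
    · rintro ⟨D, _, _, h3⟩
      exact h3
  have h4 : cn r univ x = ((comps (KG r) univ).biUnion
      (fun D => D.powerset.filter (fun S => ty S r = x))).card := by
    unfold cn
    rw [h1]
  rw [h4, card_biUnion]
  · rfl
  · intro D hD E hE hne
    rw [Function.onFun, Finset.disjoint_left]
    intro S hS hS'
    rw [mem_filter, mem_powerset] at hS hS'
    have h2 : S.Nonempty := by
      rw [← card_pos, ← szt_ty S r, hS.2]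
      exact hx0
    obtain ⟨a, ha⟩ := h2
    apply hne
    rw [← comp_of_mem _ _ D hD a (hS.1 ha), ← comp_of_mem _ _ E hE a (hS'.1 ha)]

/-- the recursion for the numbers of components -/
theorem nu_rec (r : V → V → Prop) (x : Ty V) (hx : ∀ S, ty S r = x → Conn (KG r) S)
    (hx0 : 0 < szt x) : cn r univ x = nu r x +
      ∑ y ∈ univ.filter (fun y : Ty V => szt x < szt y), nu r y * cy y x := by
  rw [cn_comps r x hx hx0]
  have h1 : ∀ D ∈ comps (KG r) univ, cn r D x = (if ty D r = x then 1 else 0) +
      if szt x < D.card then cn r D x else 0 := by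
    intro D _
    rcases lt_trichotomy D.card (szt x) with h | h | h
    · rw [cn_eq_zero r D x h, if_neg, if_neg (by omega)]
      intro h2
      rw [← h2, szt_ty] at h
      omega
    · rw [cn_same r D x h, if_neg (show ¬ szt x < D.card by omega)]
      rfl
    · rw [if_pos h, if_neg]
      · rw [zero_add]
      · intro h2
        rw [← h2, szt_ty] at h
        omega
  rw [sum_congr rfl h1, sum_add_distrib]
  congr 1
  · unfold nu
    rw [card_filter]
  · rw [← sum_filter]
    have h2 : ∀ y ∈ univ.filter (fun y : Ty V => szt x < szt y), nu r y * cy y x =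
        ∑ D ∈ (((comps (KG r) univ).filter (fun D => szt x < D.card)).filter
          (fun D => ty D r = y)), cn r D x := by
      intro y hy
      rw [mem_filter] at hy
      have e1 : ((comps (KG r) univ).filter (fun D => szt x < D.card)).filter
          (fun D => ty D r = y) = (comps (KG r) univ).filter (fun D => ty D r = y) := by
        rw [filter_filter]
        apply filter_congr
        intro D _
        constructor
        · exact fun h => h.2
        · intro h
          refine ⟨?_, h⟩
          rw [← szt_ty D r, h]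
          exact hy.2
      rw [e1]
      unfold nu
      rw [← smul_eq_mul, ← sum_const]
      apply sum_congr rfl
      intro D hD
      rw [cn_cy, (mem_filter.mp hD).2]
    rw [sum_congr rfl h2]
    refine (Finset.sum_fiberwise_of_maps_to (g := fun D => ty D r) ?_ _).symm
    intro D hD
    rw [mem_filter] at hD ⊢
    rw [szt_ty]
    exact ⟨mem_univ _, hD.2⟩

theorem nu_zero (r : V → V → Prop) (x : Ty V) (h : ¬ ∀ S, ty S r = x → Conn (KG r) S) :
    nu r x = 0 := by
  unfold nu
  rw [card_eq_zero, filter_eq_empty_iff]
  intro D hD hx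
  apply h
  intro S hS
  refine conn_rl r r D S ?_ (conn_comp _ D hD)
  rw [← ty_eq, hS, hx]

theorem comp_card_lt (K : SimpleGraph V) (h2 : 2 ≤ (comps K univ).card) (D : Finset V)
    (hD : D ∈ comps K univ) : D.card < Fintype.card V := by
  rw [← card_univ]
  apply card_lt_card
  rw [ssubset_univ_iff]
  rintro rfl
  have h1 := comps_comp K univ univ hD
  rw [h1, card_singleton] at h2
  omega

theorem nu_eq (r s : V → V → Prop) (π : V → Equiv.Perm V) (hH : HypR r s π)
    (h2 : 2 ≤ (comps (KG r) univ).card) (h2' : 2 ≤ (comps (KG s) univ).card) :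
    ∀ k, ∀ x : Ty V, Fintype.card V ≤ szt x + k → nu r x = nu s x := by
  intro k
  induction k with
  | zero =>
    intro x hx
    have key : ∀ r : V → V → Prop, 2 ≤ (comps (KG r) univ).card → nu r x = 0 := by
      intro r h2
      unfold nu
      rw [card_eq_zero, filter_eq_empty_iff]
      intro D hD h
      have h3 := comp_card_lt _ h2 D hD
      rw [← szt_ty D r, h] at h3
      omega
    rw [key r h2, key s h2']
  | succ k ih =>
    intro x hx
    by_cases hx1 : Fintype.card V ≤ szt x + k
    · exact ih x hx1
    · by_cases hx0 : 0 < szt x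
      · by_cases hc : ∀ S, ty S r = x → Conn (KG r) S
        · by_cases hc' : ∀ S, ty S s = x → Conn (KG s) S
          · have e1 := nu_rec r x hc hx0
            have e2 := nu_rec s x hc' hx0
            have e3 := kelly r s π hH x (by omega)
            have e4 : ∑ y ∈ univ.filter (fun y : Ty V => szt x < szt y), nu r y * cy y x =
                ∑ y ∈ univ.filter (fun y : Ty V => szt x < szt y), nu s y * cy y x := by
              apply sum_congr rfl
              intro y hy
              rw [ih y (by have := (mem_filter.mp hy).2; omega)]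
            omega
          · rw [nu_zero s x hc']
            unfold nu
            rw [card_eq_zero, filter_eq_empty_iff]
            intro D hD hx
            apply hc'
            intro S hS
            refine conn_rl r s D S ?_ (conn_comp _ D hD)
            rw [← ty_eq, hS, hx]
        · rw [nu_zero r x hc]
          symm
          unfold nu
          rw [card_eq_zero, filter_eq_empty_iff]
          intro D hD hx
          apply hc
          intro S hS
          refine conn_rl s r D S ?_ (conn_comp _ D hD)
          rw [← ty_eq, hS, hx]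
      · have key : ∀ r : V → V → Prop, nu r x = 0 := by
          intro r
          unfold nu
          rw [card_eq_zero, filter_eq_empty_iff]
          intro D hD h
          have h3 := card_pos.mpr (comps_nonempty _ _ D hD)
          rw [← szt_ty D r, h] at h3
          omega
        rw [key r, key s]

/-- if the components agree, the relations are isomorphic -/
theorem iso_of_nu (r s : V → V → Prop) (h : ∀ x, nu r x = nu s x) :
    ∃ σ : Equiv.Perm V, ∀ x y, s (σ x) (σ y) ↔ r x y := by
  let ι := {D // D ∈ comps (KG r) univ}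
  let ι' := {D // D ∈ comps (KG s) univ}
  have cardG : ∀ (r : V → V → Prop) x,
      Fintype.card {j : {D // D ∈ comps (KG r) univ} // ty (j : Finset V) r = x} = nu r x := by
    intro r x
    unfold nu
    rw [← Fintype.card_coe]
    apply Fintype.card_congr
    exact ⟨fun j => ⟨j.1.1, mem_filter.mpr ⟨j.1.2, j.2⟩⟩,
      fun j => ⟨⟨j.1, (mem_filter.mp j.2).1⟩, (mem_filter.mp j.2).2⟩,
      fun _ => rfl, fun _ => rfl⟩
  have hfib : ∀ c : Ty V, Nonempty ({j : ι // ty (j : Finset V) r = c} ≃
      {j : ι' // ty (j : Finset V) s = c}) := by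
    intro c
    refine ⟨Fintype.equivOfCardEq ?_⟩
    rw [cardG, cardG, h]
  let tG : ι → Ty V := fun j => ty (j : Finset V) r
  let tH : ι' → Ty V := fun j => ty (j : Finset V) s
  let β : ι ≃ ι' := Equiv.ofFiberEquiv (f := tG) (g := tH) (fun c => (hfib c).some)
  have hβ : ∀ j : ι, ty (β j : Finset V) s = ty (j : Finset V) r :=
    fun j => Equiv.ofFiberEquiv_map (f := tG) (g := tH) _ j
  have hβ2 : ∀ j : ι, Rl ((j : Finset V), r) ((β j : Finset V), s) := fun j =>
    (ty_eq _ _ _ _).mp (hβ j).symm
  choose f hf1 hf2 hf3 using hβ2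
  simp only at hf1 hf2 hf3
  let cj : V → ι := fun x => ⟨comp (KG r) univ x, comp_mem_comps _ univ x (mem_univ _)⟩
  have hcj : ∀ x, x ∈ ((cj x : ι) : Finset V) := fun x => comp_self _ univ x (mem_univ _)
  let σ0 : V → V := fun x => f (cj x) x
  have hσm : ∀ x, σ0 x ∈ ((β (cj x) : ι') : Finset V) := fun x => by
    rw [← hf2]
    exact mem_image_of_mem _ (hcj x)
  have hsame : ∀ x y, σ0 y ∈ ((β (cj x) : ι') : Finset V) → cj x = cj y := by
    intro x y h
    apply β.injective
    apply Subtype.ext
    rw [← comp_of_mem _ univ _ (β (cj x)).2 _ h, ← comp_of_mem _ univ _ (β (cj y)).2 _ (hσm y)]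
  have hinj : Function.Injective σ0 := by
    intro x y hxy
    have h1 := hsame x y (hxy ▸ hσm x)
    have h2 : f (cj x) x = f (cj x) y := by
      have h3 : f (cj x) x = f (cj y) y := hxy
      rw [h3, h1]
    exact hf1 (cj x) x (hcj x) y (h1 ▸ hcj y) h2
  refine ⟨Equiv.ofBijective σ0 (Finite.injective_iff_bijective.mp hinj), fun x y => ?_⟩
  show s (σ0 x) (σ0 y) ↔ r x y
  by_cases hc : cj x = cj y
  · have h1 : σ0 y = f (cj x) y := by
      show f (cj y) y = _
      rw [hc]
    rw [h1]
    exact hf3 (cj x) x (hcj x) y (hc ▸ hcj y)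
  · have hxy : x ≠ y := fun e => hc (e ▸ rfl)
    have hxy' : σ0 x ≠ σ0 y := fun e => hxy (hinj e)
    have n1 : ¬ r x y := by
      intro h1
      apply hc
      have h2 := comp_closed (KG r) univ _ (cj x).2 x y (hcj x) (mem_univ _)
        ((KG_adj _ _ _).mpr ⟨hxy, Or.inl h1⟩)
      apply Subtype.ext
      exact (comp_of_mem _ univ _ (cj x).2 y h2).symm
    have n2 : ¬ s (σ0 x) (σ0 y) := by
      intro h1
      exact hc (hsame x y (comp_closed (KG s) univ _ (β (cj x)).2 _ _ (hσm x) (mem_univ _)
        ((KG_adj _ _ _).mpr ⟨hxy', Or.inl h1⟩)))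
    exact iff_of_false n2 n1

/-- Kelly's theorem: disconnected relations are determined by their decks -/
theorem kelly_disc (r s : V → V → Prop) (π : V → Equiv.Perm V) (hH : HypR r s π)
    (hn : 3 ≤ Fintype.card V) (h2 : 2 ≤ (comps (KG r) univ).card) :
    ∃ σ : Equiv.Perm V, ∀ x y, s (σ x) (σ y) ↔ r x y := by
  have hK := KG_hypo r s π hH
  have h2' : 2 ≤ (comps (KG s) univ).card := by
    by_contra hcon
    have hne : (univ : Finset V).Nonempty := card_pos.mp (by rw [card_univ]; omega)
    obtain ⟨v, _, hv⟩ := exists_noncut (KG s) univ hne (by omega)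
    have hc : (comps (KG s) (univ.erase v)).card = (comps (KG r) (univ.erase v)).card := by
      have hπ : ∀ x, π v x ∈ univ.erase v ↔ x ∈ univ.erase v := by
        intro x
        rw [mem_erase, mem_erase]
        have : π v x ≠ v ↔ x ≠ v := by
          rw [← (π v).injective.ne_iff (x := x), hH.fix]
        simp [this]
      rw [comps_map (KG r) (KG s) (univ.erase v) (univ.erase v) (π v) hπ
        (fun x y hx hy => hK.adj v x y (mem_erase.mp hx).1 (mem_erase.mp hy).1),
        card_image_of_injective _ (Finset.map_injective _)]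
    rw [hc] at hv
    set D := comp (KG r) univ v with hD
    have hDc : D ∈ comps (KG r) univ := comp_mem_comps _ univ v (mem_univ _)
    have hvD : v ∈ D := comp_self _ univ v (mem_univ _)
    have e1 := comps_eq_union (KG r) univ D hDc
    have e2 := comps_erase (KG r) univ D hDc v hvD
    have h3 : 1 ≤ (comps (KG r) (univ \ D)).card := by
      have h4 := card_union_le {D} (comps (KG r) (univ \ D))
      rw [← e1, card_singleton] at h4
      omega
    have h5 : Disjoint (comps (KG r) (D.erase v)) (comps (KG r) (univ \ D)) := by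
      apply comps_disjoint
      rw [Finset.disjoint_left]
      intro x hx hx'
      exact (mem_sdiff.mp hx').2 (mem_erase.mp hx).2
    have h6 := card_union_of_disjoint h5
    rw [← e2] at h6
    have h7 : comps (KG r) (D.erase v) = ∅ := card_eq_zero.mp (by omega)
    have h8 : ∀ x ∈ D, x = v := by
      intro x hx
      by_contra hne
      have := comp_mem_comps (KG r) (D.erase v) x (mem_erase.mpr ⟨hne, hx⟩)
      rw [h7] at this
      exact absurd this (notMem_empty _)
    have h9 : dS (KG r) univ v = 0 := by
      rw [dS, card_eq_zero, filter_eq_empty_iff]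
      intro y _ hadj
      have := comp_closed _ univ D hDc v y hvD (mem_univ _) hadj
      rw [h8 y this] at hadj
      exact hadj.1 rfl
    have h10 : dS (KG s) univ v = 0 := by
      rw [← h9]
      exact (dS_eq hK univ (fun _ _ _ _ => mem_univ _) (by rw [card_univ]; exact hn) v
        (mem_univ _)).symm
    rw [dS, card_eq_zero, filter_eq_empty_iff] at h10
    have h11 : comp (KG s) univ v = {v} := by
      have h12 : ∀ x ∈ ({v} : Finset V), ∀ y ∈ (univ : Finset V), (KG s).Adj x y →
          y ∈ ({v} : Finset V) := by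
        intro x hx y hy hadj
        rw [mem_singleton] at hx
        subst hx
        exact absurd hadj (h10 hy)
      rw [comp_closed_eq (KG s) univ {v} (subset_univ _) h12 v (mem_singleton_self _)]
      apply subset_antisymm (comp_sub _ _ _)
      rw [singleton_subset_iff]
      exact comp_self _ _ _ (mem_singleton_self _)
    obtain ⟨u, hu⟩ : ∃ u, u ≠ v := by
      by_contra hcon2
      push Not at hcon2
      have h13 : (univ : Finset V) ⊆ {v} := fun x _ => mem_singleton.mpr (hcon2 x)
      have h14 := card_le_card h13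
      rw [card_univ, card_singleton] at h14
      omega
    have h15 : comp (KG s) univ u = comp (KG s) univ v :=
      (card_le_one.mp (by omega : (comps (KG s) univ).card ≤ 1)) _
        (comp_mem_comps _ univ u (mem_univ _)) _ (comp_mem_comps _ univ v (mem_univ _))
    have h16 := comp_self (KG s) univ u (mem_univ _)
    rw [h15, h11, mem_singleton] at h16
    exact hu h16
  apply iso_of_nu
  intro x
  exact nu_eq r s π hH h2 h2' (Fintype.card V) x (by omega)

end Pool.Agent.TH87.RVM
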